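import Pool.Agent.H25.CBase
import Pool.Agent.H11.PS1

set_option autoImplicit false

namespace Pool.Agent.Results.MP_447f9a_lc.Hard

open Pool.Agent.H11.PT Pool.Agent.H25.CB SimpleGraph Finset

/-- every induced subgraph has chromatic number equal to clique number -/
def Perfect {V : Type} (G : SimpleGraph V) : Prop :=
  ∀ S : Set V, (G.induce S).chromaticNumber = (G.induce S).cliqueNum

/-- `G` has a skew partition of balanced size with constant `c` -/
def BSP (c : ℚ) {n : ℕ} (G : SimpleGraph (Fin n)) : Prop :=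
  ∃ A B C D : Finset (Fin n), [A, B, C, D].Pairwise Disjoint ∧ A ∪ B ∪ C ∪ D = univ ∧
    (∀ X ∈ [A, B, C, D], X.Nonempty ∧ (n : ℚ) / c ≤ X.card) ∧
    (∀ u ∈ A, ∀ v ∈ B, ¬G.Adj u v) ∧ ∀ u ∈ C, ∀ v ∈ D, G.Adj u v

theorem perfect {n : ℕ} {G : SimpleGraph (Fin n)} (h : G.Colorable 2) : Perfect G := by
  intro S
  have h : (G.induce S).Colorable 2 := h.of_hom (Embedding.induce S).toHom
  generalize G.induce S = H at *
  refine le_antisymm (Colorable.chromaticNumber_le ?_) cliqueNum_le_chromaticNumber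
  by_cases e : ∃ u v, H.Adj u v
  · obtain ⟨u, v, e⟩ := e
    refine h.mono ?_
    have := IsClique.card_le_cliqueNum (G := H) (t := {u, v}) (tc := by simpa using fun _ => e)
    rwa [card_pair e.ne] at this
  · rcases isEmpty_or_nonempty S with z | ⟨⟨u⟩⟩
    · exact ⟨⟨fun x => z.elim x, fun {x} => z.elim x⟩⟩
    · have := IsClique.card_le_cliqueNum (G := H) (t := {u}) (tc := by simp)
      exact ⟨⟨fun _ => ⟨0, this⟩, fun h => (e ⟨_, _, h⟩).elim⟩⟩

def rel (n : ℕ) (E : List (ℕ × ℕ)) (k K x w : ℕ) : Prop :=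
  x < K + k ∧ K + k ≤ w ∧ (x = n ∨ (n * n ≤ w - (K + k) ∧ w - (K + k) < n * n + (K - k * k)) ∨
    (w - (K + k) < n * n ∧ ¬((w - (K + k)) / n, (w - (K + k)) % n) ∈ E ∧
      ¬(w - (K + k)) / n = x ∧ ¬(w - (K + k)) % n = x))

instance (n : ℕ) (E : List (ℕ × ℕ)) (k K x w : ℕ) : Decidable (rel n E k K x w) := by
  unfold rel; infer_instance

theorem sound {n k K : ℕ} {E : List (ℕ × ℕ)} (h1 : n * n + n + 2 ≤ K) (h2 : k ≤ n)
    (C D : Finset ℕ) (hC : K ≤ C.card) (hD : K ≤ D.card)
    (h : ∀ c ∈ C, ∀ d ∈ D, rel n E k K c d) : IS (n, E, k) := by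
  obtain ⟨c, c1, c2⟩ := exists_mem_notMem_of_card_lt_card (s := {n}) (t := C) (by simp; omega)
  obtain ⟨d, d1⟩ := card_pos.1 (show 0 < D.card by omega)
  have kk := Nat.mul_le_mul h2 h2
  have s1 : (range n \ C).card ≤ k := by
    have := card_sdiff_of_subset (s := C) (t := range (K + k)) fun x hx => mem_range.2 (h x hx d d1).1
    have := card_le_card (sdiff_subset_sdiff (range_mono (show n ≤ K + k by omega)) (subset_refl C))
    simp only [card_range] at *
    omega
  let T := ((range n \ C) ×ˢ (range n \ C)).filter fun p => ¬p ∈ E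
  have s2 : k * k ≤ T.card := by
    let Q := Ico (K + k + n * n) (K + k + n * n + (K - k * k))
    have := le_card_sdiff Q D
    have := card_le_card_of_injOn (s := D \ Q) (t := T)
      (fun w => ((w - (K + k)) / n, (w - (K + k)) % n)) (fun w hw => ?_) fun w hw w' hw' e => ?_
    · simp only [Q, Nat.card_Ico] at *
      omega
    · simp only [Q, coe_sdiff, Set.mem_diff, mem_coe, mem_Ico] at hw
      have g := h c c1 w hw.1
      have : w - (K + k) < n * n := by unfold rel at g; simp at c2; omega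
      have a1 := Nat.div_lt_of_lt_mul this
      have a2 := Nat.mod_lt (w - (K + k)) (Nat.zero_lt_of_lt a1)
      have := fun hx => h ((w - (K + k)) / n) hx w hw.1
      have := fun hx => h ((w - (K + k)) % n) hx w hw.1
      simp only [T, rel, coe_filter, mem_product, mem_sdiff, mem_range, Set.mem_setOf_eq,
        mem_singleton] at *
      grind
    · have := (h c c1 w (mem_sdiff.1 hw).1).2.1
      have := (h c c1 w' (mem_sdiff.1 hw').1).2.1
      have := Nat.div_add_mod (w - (K + k)) n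
      have := Nat.div_add_mod (w' - (K + k)) n
      simp only [Prod.mk.injEq] at e
      rw [← e.1, ← e.2] at this
      omega
  have s3 : T = _ ×ˢ _ := eq_of_subset_of_card_le (filter_subset _ _)
    (by rw [card_product]; exact (Nat.mul_le_mul s1 s1).trans s2)
  rw [s3, card_product] at s2
  refine ⟨range n \ C, fun v hv => mem_range.1 (mem_sdiff.1 hv).1,
    Nat.mul_self_le_mul_self_iff.1 s2, fun e he hh => ?_⟩
  exact (mem_filter.1 (s3 ▸ mem_product.2 hh : e ∈ T)).2 he

theorem complete {n k K : ℕ} {E : List (ℕ × ℕ)} (h1 : n * n + n + 2 ≤ K) (h2 : k ≤ n)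
    (h : IS (n, E, k)) : ∃ C D : Finset ℕ, C.card = K ∧ D.card = K ∧ n ∈ C ∧
      ∀ c ∈ C, ∀ d ∈ D, rel n E k K c d := by
  obtain ⟨I, a1, a2, a3⟩ := h
  obtain ⟨J, b1, b2⟩ := exists_subset_card_eq a2
  have kk := Nat.mul_le_mul h2 h2
  have lt : ∀ u ∈ J, u < n := fun u hu => a1 u (b1 hu)
  have dm : ∀ u ∈ J, ∀ v ∈ J, (v + n * u) / n = u ∧ (v + n * u) % n = v ∧ v + n * u < n * n := by
    intro u hu v hv
    have := lt u hu
    have := lt v hv
    refine ⟨by rw [Nat.add_mul_div_left _ _ (by omega), Nat.div_eq_of_lt this]; simp,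
      by simp [Nat.mod_eq_of_lt this], by nlinarith⟩
  refine ⟨range (K + k) \ J, (J ×ˢ J).image (fun p => K + k + (p.2 + n * p.1)) ∪
    Ico (K + k + n * n) (K + k + n * n + (K - k * k)), ?_, ?_, ?_, fun c hc d hd => ?_⟩
  · rw [card_sdiff_of_subset fun x hx => mem_range.2 (by have := lt x hx; omega)]
    simp [b2]
  · rw [card_union_of_disjoint, card_image_of_injOn, card_product, b2, Nat.card_Ico]
    · simp only; omega
    · intro p hp q hq e
      simp only [coe_product, Set.mem_prod, mem_coe] at hp hq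
      have := dm _ hp.1 _ hp.2
      have := dm _ hq.1 _ hq.2
      grind
    · simp only [Finset.disjoint_left, mem_image, mem_product, mem_Ico]
      rintro _ ⟨p, hp, rfl⟩
      have := dm _ hp.1 _ hp.2
      omega
  · simp only [mem_sdiff, mem_range]
    exact ⟨by omega, fun h => (lt _ h).false⟩
  · simp only [mem_sdiff, mem_range, mem_union, mem_image, mem_product, mem_Ico] at hc hd
    rcases hd with ⟨p, hp, rfl⟩ | hd
    · have := dm _ hp.1 _ hp.2
      have := fun h => a3 p h ⟨b1 hp.1, b1 hp.2⟩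
      simp only [rel, Nat.add_sub_cancel_left]
      grind
    · unfold rel; omega

def red (p q : ℕ) (y : ℕ × List (ℕ × ℕ) × ℕ) : ℕ × List (ℕ × ℕ) :=
  (p * (y.1 * y.1 + y.1 + 2), (List.range (p * (y.1 * y.1 + y.1 + 2)) ×ˢ
    List.range (p * (y.1 * y.1 + y.1 + 2))).filter fun e =>
      decide (rel y.1 y.2.1 y.2.2 (q * (y.1 * y.1 + y.1 + 2)) e.1 e.2))

theorem result (c : ℚ) (hc : 4 ≤ c) (L : List Bool → Prop) (hL : InNP L) :
    ∃ f : List Bool → ℕ × List (ℕ × ℕ), PolyTime id bits f ∧ ∀ x,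
      ((gr (f x).1 (f x).2).Connected ∧ (gr (f x).1 (f x).2).Colorable 2 ∧
        Perfect (gr (f x).1 (f x).2)) ∧ (L x ↔ BSP c (gr (f x).1 (f x).2)) := by
  obtain ⟨p, q, q0, rfl⟩ : ∃ p q : ℕ, 0 < q ∧ c = p / q :=
    ⟨c.num.toNat, c.den, c.pos, by
      rw [← Int.cast_natCast, Int.toNat_of_nonneg (Rat.num_nonneg.2 (by linarith)), Rat.num_div_den]⟩
  have pq : 4 * q ≤ p := by
    rw [le_div_iff₀ (by positivity)] at hc
    exact_mod_cast hc
  suffices h : HardFor InNP (fun y : ℕ × List (ℕ × ℕ) => (gr y.1 y.2).Connected ∧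
      (gr y.1 y.2).Colorable 2 ∧ Perfect (gr y.1 y.2)) fun y => BSP (p / q) (gr y.1 y.2) by
    obtain ⟨f, hf, e⟩ := h L hL
    exact ⟨f, hf.polyTime_raw, e⟩
  refine hard_IS.red (red p q) (by unfold red rel; fun_prop) fun ⟨n, E, k⟩ hy => ?_
  have h2 : k ≤ n := hy.1
  have kk := Nat.mul_le_mul h2 h2
  simp only [red]
  have h1 := Nat.mul_le_mul_right (n * n + n + 2) q0
  have h3 := Nat.mul_le_mul_right (n * n + n + 2) pq
  have h4 : ∀ t : ℕ, ((p * (n * n + n + 2) : ℕ) : ℚ) / (p / q) ≤ t ↔ q * (n * n + n + 2) ≤ t := by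
    intro t
    have : (0 : ℚ) < p := by exact_mod_cast (by omega : 0 < p)
    rw [show ((p * (n * n + n + 2) : ℕ) : ℚ) / (p / q) = (q * (n * n + n + 2) : ℕ) by
      push_cast; field_simp, Nat.cast_le]
  rw [mul_assoc] at h3
  rw [Nat.succ_eq_add_one, zero_add, one_mul] at h1
  generalize p * (n * n + n + 2) = N at *
  generalize q * (n * n + n + 2) = K at *
  have ad : ∀ u v, (gr N ((List.range N ×ˢ List.range N).filter fun e =>
      decide (rel n E k K e.1 e.2))).Adj u v ↔ rel n E k K u v ∨ rel n E k K v u := by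
    intro u v
    simp [gr, Fin.ext_iff]
    unfold rel; omega
  generalize gr N _ = G at *
  have col : G.Colorable 2 := ⟨⟨fun v => if v.1 < K + k then 0 else 1, fun {u v} h => by
    rw [ad] at h
    unfold rel at h
    split_ifs <;> first | omega | simp⟩⟩
  refine ⟨⟨?_, col, perfect col⟩, fun h => ?_, fun ⟨A, B, C, D, _, _, a, _, b⟩ => ?_⟩
  · have r : ∀ w : Fin N, K + k ≤ w → G.Reachable ⟨n, by omega⟩ w := fun w hw =>
      Adj.reachable ((ad _ _).2 (.inl ⟨by simp only; omega, hw, .inl rfl⟩))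
    refine (connected_iff_exists_forall_reachable _).2 ⟨⟨n, by omega⟩, fun w => ?_⟩
    rcases le_or_gt (K + k) w with hw | hw
    · exact r w hw
    · exact (r ⟨K + k + n * n, by omega⟩ (by simp)).trans
        (Adj.reachable ((ad _ _).2 (.inr ⟨hw, by simp, by simp only; omega⟩)))
  · obtain ⟨C, D, a1, a2, a3, a4⟩ := complete h1 h2 h
    obtain ⟨d, d1⟩ := card_pos.1 (show 0 < D.card by omega)
    obtain ⟨c, c1, c2⟩ := exists_mem_notMem_of_card_lt_card (s := {n}) (t := C) (by simp; omega)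
    have hC : ∀ x ∈ C, x < K + k := fun x hx => (a4 x hx d d1).1
    have hD : ∀ x ∈ D, K + k ≤ x ∧ x < N - K := fun x hx => by
      have := a4 c c1 x hx
      simp at c2
      unfold rel at this; omega
    let A := (Ico (N - K) N).attachFin fun _ h => (mem_Ico.1 h).2
    let C' := C.attachFin fun x h => (by have := hC x h; omega : x < N)
    let D' := D.attachFin fun x h => (by have := hD x h; omega : x < N)
    have := card_compl (A ∪ C' ∪ D')
    have := card_union_le (A ∪ C') D'
    have := card_union_le A C'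
    have : A.card = K := by simp [A]; omega
    have : C'.card = K := by simp [C', a1]
    have : D'.card = K := by simp [D', a2]
    refine ⟨A, (A ∪ C' ∪ D')ᶜ, C', D', ?_, ?_, ?_, fun u hu v hv => ?_, fun u hu v hv => ?_⟩
    · simp [Finset.disjoint_left, A, C', D']
      grind
    · ext; simp; grind
    · simp only [List.forall_mem_cons, h4, ← card_pos, Fintype.card_fin, List.not_mem_nil,
        false_imp_iff, imp_true_iff, and_true] at *
      omega
    · simp [A, C', D'] at hu hv
      rw [ad]; unfold rel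
      grind
    · exact (ad _ _).2 (.inl (a4 _ (by simpa [C'] using hu) _ (by simpa [D'] using hv)))
  · simp only [List.forall_mem_cons, h4] at a
    obtain ⟨-, -, ⟨⟨c, c1⟩, c2⟩, ⟨⟨d, d1⟩, d2⟩, -⟩ := a
    simp only [ad] at b
    have e : ∀ X : Finset (Fin N), (X.map Fin.valEmbedding).card = X.card := fun _ => card_map _
    rcases b c c1 d d1 with g | g
    · refine sound h1 h2 _ _ (c2.trans_eq (e _).symm) (d2.trans_eq (e _).symm) ?_
      simp only [mem_map, Fin.valEmbedding_apply]
      rintro _ ⟨x, hx, rfl⟩ _ ⟨y, hy, rfl⟩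
      have := b x hx y hy
      have := b x hx d d1
      grind [rel]
    · refine sound h1 h2 _ _ (d2.trans_eq (e _).symm) (c2.trans_eq (e _).symm) ?_
      simp only [mem_map, Fin.valEmbedding_apply]
      rintro _ ⟨x, hx, rfl⟩ _ ⟨y, hy, rfl⟩
      have := b y hy x hx
      have := b c c1 x hx
      grind [rel]

end Pool.Agent.Results.MP_447f9a_lc.Hard
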